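import Pool.Agent.Lib64Chowla.Sieve

set_option autoImplicit false

/-!
Arithmetic progressions of square-free integers of given length whose product has an odd number
of prime factors, with the common difference divisible by a prescribed integer.
-/

namespace Pool.Agent.Lib64Chowla

open Finset ArithmeticFunction

lemma mu_sq {n : ℕ} (h : Squarefree n) : moebius n = 1 ∨ moebius n = -1 := by
  rw [moebius_apply_of_squarefree h]
  exact neg_one_pow_eq_or ℤ _

theorem ladder (K τ₀ : ℕ) (hK : 0 < K) (hτ₀ : 0 < τ₀)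
    (hτ : ∀ q : ℕ, q.Prime → q ≤ 2 * K + 1 → q ∣ τ₀) :
    ∃ A τ : ℕ, 0 < A ∧ 0 < τ ∧ τ₀ ∣ τ ∧ A ≡ 1 [MOD τ₀] ∧ Nat.Coprime A τ ∧
      (∀ x ≤ K, Squarefree (A + x * τ)) ∧ moebius A * moebius (A + K * τ) = -1 := by
  classical
  obtain ⟨p, hp, hpgt, hpmod⟩ := Nat.exists_prime_gt_modEq_one (k := K * τ₀) (K * τ₀ + 2 * K + 1)
    (by positivity)
  obtain ⟨e', he'⟩ : K * τ₀ ∣ p - 1 := (Nat.modEq_iff_dvd' hp.one_lt.le).mp hpmod.symm
  set e : ℕ := τ₀ * e' with he
  have hpe : p = 1 + K * e := by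
    have := hp.one_lt
    have h1 : p - 1 = K * e := by rw [he', he]; ring
    omega
  have he1 : 0 < e := by
    rcases Nat.eq_zero_or_pos e with h | h
    · rw [h] at hpe
      have := hp.one_lt
      omega
    · exact h
  set I : Finset (ℕ × ℕ) := (image (fun x => (x * τ₀, 1)) (Icc 1 K) ∪
    image (fun x => (x * τ₀, p - x * e)) (Icc 1 K)) ∪ {(p * (K * τ₀), p)} with hI
  have hIcard : I.card ≤ 2 * K + 1 := by
    refine (card_union_le _ _).trans ?_
    refine (Nat.add_le_add_right (card_union_le _ _) _).trans ?_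
    have h1 := card_image_le (s := Icc 1 K) (f := fun x => (x * τ₀, 1))
    have h2 := card_image_le (s := Icc 1 K) (f := fun x => (x * τ₀, p - x * e))
    simp only [Nat.card_Icc, card_singleton] at *
    omega
  have hcases : ∀ i ∈ I, (∃ x, 1 ≤ x ∧ x ≤ K ∧ i = (x * τ₀, 1)) ∨
      (∃ x, 1 ≤ x ∧ x ≤ K ∧ i = (x * τ₀, p - x * e)) ∨ i = (p * (K * τ₀), p) := by
    intro i hi
    simp only [hI, mem_union, mem_image, mem_Icc, mem_singleton] at hi
    rcases hi with (⟨x, ⟨h1, h2⟩, rfl⟩ | ⟨x, ⟨h1, h2⟩, rfl⟩) | rfl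
    · exact Or.inl ⟨x, h1, h2, rfl⟩
    · exact Or.inr (Or.inl ⟨x, h1, h2, rfl⟩)
    · exact Or.inr (Or.inr rfl)
  have hp2 : ∀ q : ℕ, q.Prime → q ∣ τ₀ → ¬ q ∣ p := by
    intro q hq hqτ hqp
    have h1 : q = p := (Nat.prime_dvd_prime_iff_eq hq hp).mp hqp
    have h2 := Nat.le_of_dvd hτ₀ hqτ
    have h3 : τ₀ ≤ K * τ₀ := Nat.le_mul_of_pos_left _ hK
    omega
  have hA : ∀ i ∈ I, 0 < i.1 := by
    intro i hi
    rcases hcases i hi with ⟨x, h1, h2, rfl⟩ | ⟨x, h1, h2, rfl⟩ | rfl
    · simp only; positivity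
    · simp only; positivity
    · simp only; have := hp.pos; positivity
  have hloc : ∀ q : ℕ, q.Prime → ∃ s, ∀ i ∈ I, ¬ q ^ 2 ∣ i.1 * s + i.2 := by
    intro q hq
    by_cases hqτ : q ∣ τ₀
    · refine ⟨0, ?_⟩
      intro i hi hd
      have hd1 : q ∣ i.1 * 0 + i.2 := (dvd_pow_self q two_ne_zero).trans hd
      simp only [mul_zero, zero_add] at hd1
      rcases hcases i hi with ⟨x, h1, h2, rfl⟩ | ⟨x, h1, h2, rfl⟩ | rfl
      · exact hq.one_lt.ne' (Nat.dvd_one.mp hd1)
      · simp only at hd1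
        -- p - x e = 1 + (K - x) e
        have h3 : p - x * e = 1 + (K - x) * e := by
          rw [hpe, Nat.sub_mul]
          have : x * e ≤ K * e := Nat.mul_le_mul_right _ h2
          omega
        rw [h3] at hd1
        have h4 : q ∣ (K - x) * e := (hqτ.mul_right e').mul_left _
        exact hq.one_lt.ne' (Nat.dvd_one.mp ((Nat.dvd_add_left h4).mp hd1))
      · exact hp2 q hq hqτ hd1
    · have hqK : 2 * K + 1 < q := by
        by_contra h
        push Not at h
        exact hqτ (hτ q hq h)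
      apply local_exists I (fun i => i.1) (fun i => i.2) q hq _ (by omega)
      intro i hi hd
      have hd1 : q ∣ i.1 := (dvd_pow_self q two_ne_zero).trans hd
      rcases hcases i hi with ⟨x, h1, h2, rfl⟩ | ⟨x, h1, h2, rfl⟩ | rfl
      · rcases hq.dvd_mul.mp hd1 with h | h
        · have := Nat.le_of_dvd (by omega) h; omega
        · exact hqτ h
      · rcases hq.dvd_mul.mp hd1 with h | h
        · have := Nat.le_of_dvd (by omega) h; omega
        · exact hqτ h
      · simp only at hd hd1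
        have hnot : ¬ q ∣ K * τ₀ := by
          intro h
          rcases hq.dvd_mul.mp h with h | h
          · have := Nat.le_of_dvd hK h; omega
          · exact hqτ h
        have hcop : Nat.Coprime (q ^ 2) (K * τ₀) :=
          Nat.Coprime.pow_left 2 ((Nat.Prime.coprime_iff_not_dvd hq).mpr hnot)
        have h1 : q ^ 2 ∣ p := hcop.dvd_of_dvd_mul_right hd
        have h2 : q = p := (Nat.prime_dvd_prime_iff_eq hq hp).mp
          ((dvd_pow_self q two_ne_zero).trans h1)
        rw [h2] at h1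
        have h3 := Nat.le_of_dvd hp.pos h1
        have := hp.one_lt
        nlinarith
  obtain ⟨c, hc, S₀, hS⟩ := sieve I (fun i => i.1) (fun i => i.2) hA hloc
  -- find s > p
  obtain ⟨s, hsp, hs⟩ : ∃ s, p < s ∧ ∀ i ∈ I, Squarefree (i.1 * s + i.2) := by
    obtain ⟨N, hN⟩ := exists_nat_gt ((p + 1 : ℝ) / c)
    set S := max N S₀ with hSdef
    have h1 := hS S (le_max_right _ _)
    have h2 : (p + 1 : ℝ) < c * S := by
      have h3 : (N : ℝ) ≤ S := by exact_mod_cast le_max_left N S₀
      rw [div_lt_iff₀ hc] at hN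
      nlinarith
    by_contra hcon
    push Not at hcon
    have hsub : (range S).filter (fun s => ∀ i ∈ I, Squarefree (i.1 * s + i.2)) ⊆
        range (p + 1) := by
      intro s hs
      by_contra hns
      simp only [mem_range, not_lt] at hns
      obtain ⟨i, hi, hsi⟩ := hcon s (by omega)
      exact hsi ((mem_filter.mp hs).2 i hi)
    have h4 := card_le_card hsub
    rw [card_range] at h4
    have h5 : (((range S).filter (fun s => ∀ i ∈ I, Squarefree (i.1 * s + i.2))).card : ℝ) ≤
        p + 1 := by exact_mod_cast h4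
    linarith
  have hs1 : ∀ x, 1 ≤ x → x ≤ K → Squarefree (x * τ₀ * s + 1) := by
    intro x h1 h2
    have := hs (x * τ₀, 1) (by
      simp only [hI, mem_union, mem_image, mem_Icc, mem_singleton]
      exact Or.inl (Or.inl ⟨x, ⟨h1, h2⟩, rfl⟩))
    simpa using this
  have hs2 : ∀ x, 1 ≤ x → x ≤ K → Squarefree (x * τ₀ * s + (p - x * e)) := by
    intro x h1 h2
    have := hs (x * τ₀, p - x * e) (by
      simp only [hI, mem_union, mem_image, mem_Icc, mem_singleton]
      exact Or.inl (Or.inr ⟨x, ⟨h1, h2⟩, rfl⟩))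
    simpa using this
  have hs3 : Squarefree (p * (K * τ₀ * s + 1)) := by
    have := hs (p * (K * τ₀), p) (by
      simp only [hI, mem_union, mem_image, mem_Icc, mem_singleton]
      exact Or.inr trivial)
    simp only at this
    convert this using 1
    ring
  rw [Nat.squarefree_mul_iff] at hs3
  obtain ⟨hcop, hpsq, hCsq⟩ := hs3
  have hspos : 0 < s := by omega
  rcases mu_sq hCsq with hC | hC
  · -- A = p
    have hes : e < τ₀ * s := by
      have h1 : e ≤ K * e := Nat.le_mul_of_pos_left _ hK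
      have h2 : s ≤ τ₀ * s := Nat.le_mul_of_pos_left _ hτ₀
      omega
    have hkey : ∀ x ≤ K, p + x * (τ₀ * s - e) = x * τ₀ * s + (p - x * e) := by
      intro x hx
      have h1 : x * e ≤ K * e := Nat.mul_le_mul_right _ hx
      have h2 : x * e ≤ x * (τ₀ * s) := Nat.mul_le_mul_left _ hes.le
      rw [Nat.mul_sub, mul_assoc]
      omega
    have hKe : p - K * e = 1 := by omega
    refine ⟨p, τ₀ * s - e, hp.pos, by omega, ?_, ?_, ?_, ?_, ?_⟩
    · exact Nat.dvd_sub (dvd_mul_right _ _) (dvd_mul_right _ _)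
    · rw [hpe]
      have h1 : K * e ≡ 0 [MOD τ₀] :=
        (Nat.modEq_zero_iff_dvd).mpr ((dvd_mul_right _ _).mul_left _)
      simpa using (Nat.ModEq.refl 1).add h1
    · rw [Nat.Prime.coprime_iff_not_dvd hp]
      intro hd
      have h1 : p ∣ p + K * (τ₀ * s - e) := (dvd_refl p).add (hd.mul_left K)
      rw [hkey K le_rfl, hKe] at h1
      exact (Nat.Prime.coprime_iff_not_dvd hp).mp hcop h1
    · intro x hx
      rcases Nat.eq_zero_or_pos x with rfl | hx0
      · simpa using hpsq
      · rw [hkey x hx]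
        exact hs2 x hx0 hx
    · rw [hkey K le_rfl, hKe, hC, moebius_apply_prime hp]
      norm_num
  · refine ⟨1, τ₀ * s, one_pos, by positivity, dvd_mul_right _ _, Nat.ModEq.refl _,
      Nat.coprime_one_left _, ?_, ?_⟩
    · intro x hx
      rcases Nat.eq_zero_or_pos x with rfl | hx0
      · simp
      · have := hs1 x hx0 hx
        rwa [mul_assoc, add_comm] at this
    · have h1 : 1 + K * (τ₀ * s) = K * τ₀ * s + 1 := by ring
      rw [h1, hC]
      simp

theorem exists_AP (K τ₀ : ℕ) (hK : 0 < K) (hτ₀ : 0 < τ₀)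
    (hτ : ∀ q : ℕ, q.Prime → q ≤ 2 * K + 1 → q ∣ τ₀) :
    ∃ A τ : ℕ, 0 < A ∧ 0 < τ ∧ τ₀ ∣ τ ∧ A ≡ 1 [MOD τ₀] ∧ Nat.Coprime A τ ∧
      (∀ x < K, Squarefree (A + x * τ)) ∧ ∏ x ∈ range K, moebius (A + x * τ) = -1 := by
  obtain ⟨A, τ, hA, hτp, hdvd, hmod, hcop, hsq, hmu⟩ := ladder K τ₀ hK hτ₀ hτ
  have hP : ∀ B : ℕ → ℕ, (∀ x < K, Squarefree (B x)) →
      ∏ x ∈ range K, moebius (B x) = 1 ∨ ∏ x ∈ range K, moebius (B x) = -1 := by
    intro B hB
    have : ∀ n ≤ K, ∏ x ∈ range n, moebius (B x) = 1 ∨ ∏ x ∈ range n, moebius (B x) = -1 := by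
      intro n
      induction n with
      | zero => intro _; left; simp
      | succ n ih =>
        intro hn
        rw [prod_range_succ]
        rcases ih (by omega) with h | h <;> rcases mu_sq (hB n (by omega)) with h' | h' <;>
          simp [h, h']
    exact this K le_rfl
  have h1 : (∏ x ∈ range K, moebius (A + x * τ)) * moebius (A + K * τ) =
      (∏ x ∈ range K, moebius (A + (x + 1) * τ)) * moebius (A + 0 * τ) := by
    rw [← prod_range_succ (fun x => moebius (A + x * τ)),
      ← prod_range_succ' (fun x => moebius (A + x * τ))]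
  rcases hP (fun x => A + x * τ) (fun x hx => hsq x hx.le) with h2 | h2
  · -- use the shifted window
    refine ⟨A + τ, τ, by omega, hτp, hdvd, ?_, ?_, ?_, ?_⟩
    · have : τ ≡ 0 [MOD τ₀] := (Nat.modEq_zero_iff_dvd).mpr hdvd
      simpa using hmod.add this
    · simpa using hcop
    · intro x hx
      have := hsq (x + 1) (by omega)
      rwa [show A + (x + 1) * τ = A + τ + x * τ by ring] at this
    · have h3 : ∏ x ∈ range K, moebius (A + τ + x * τ) =
          ∏ x ∈ range K, moebius (A + (x + 1) * τ) := by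
        apply prod_congr rfl; intro x _; congr 1; ring
      rw [h3]
      rw [h2, one_mul, zero_mul, add_zero] at h1
      rcases mu_sq (by simpa using hsq 0 (Nat.zero_le _) : Squarefree A) with h4 | h4
      · rw [h4] at hmu h1; linarith
      · rw [h4] at hmu h1; linarith
  · exact ⟨A, τ, hA, hτp, hdvd, hmod, hcop, fun x hx => hsq x hx.le, h2⟩

end Pool.Agent.Lib64Chowla
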