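import Pool.Agent.Lib64Chowla.Ladder

set_option autoImplicit false

/-!
The switching relation: for an odd number `k` of shifts `b j` there are `2 ^ k` affine maps
`n ↦ α f * n + m f` such that, whenever all numbers involved are square-free, the product of the
corresponding `2 ^ k` values of `∏ j, μ (a * n + b j)` is `-1`.
-/

namespace Pool.Agent.Lib64Chowla

open Finset ArithmeticFunction

lemma mu_mu {n : ℕ} (h : Squarefree n) : moebius n * moebius n = 1 := by
  rcases mu_sq h with h | h <;> rw [h] <;> norm_num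

lemma pair_eq {d d' L L' : ℕ} (hcop : Nat.Coprime d d') (h : d * L = d' * L')
    (hd : Squarefree d) (hd' : Squarefree d') (hL : Squarefree L) (hL' : Squarefree L') :
    (moebius L * moebius d) * (moebius L' * moebius d') = 1 := by
  obtain ⟨κ, rfl⟩ : d' ∣ L := (hcop.symm).dvd_of_dvd_mul_left ⟨L', h⟩
  have hd'0 : 0 < d' := Nat.pos_of_ne_zero hd'.ne_zero
  have h2 : L' = d * κ := by
    apply Nat.eq_of_mul_eq_mul_left hd'0
    rw [← h]; ring
  subst h2
  obtain ⟨c1, _, hκ⟩ := Nat.squarefree_mul_iff.mp hL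
  obtain ⟨c2, _, _⟩ := Nat.squarefree_mul_iff.mp hL'
  rw [isMultiplicative_moebius.map_mul_of_coprime c1,
    isMultiplicative_moebius.map_mul_of_coprime c2]
  have e1 := mu_mu hd
  have e2 := mu_mu hd'
  have e3 := mu_mu hκ
  calc moebius d' * moebius κ * moebius d * (moebius d * moebius κ * moebius d')
      = (moebius d * moebius d) * (moebius d' * moebius d') * (moebius κ * moebius κ) := by ring
    _ = 1 := by rw [e1, e2, e3]; norm_num

/-- Value of a 0/1 vector read in base two. -/
def val {k : ℕ} (f : Fin k → Fin 2) : ℕ := ∑ i, (f i : ℕ) * 2 ^ (i : ℕ)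

lemma val_eq {k : ℕ} (f : Fin k → Fin 2) : val f = (finFunctionFinEquiv f : ℕ) := by
  rw [finFunctionFinEquiv_apply]; rfl

lemma val_lt {k : ℕ} (f : Fin k → Fin 2) : val f < 2 ^ k := by
  rw [val_eq]; exact (finFunctionFinEquiv f).2

lemma val_inj {k : ℕ} {f g : Fin k → Fin 2} (h : val f = val g) : f = g := by
  rw [val_eq, val_eq] at h
  exact finFunctionFinEquiv.injective (Fin.ext h)

lemma prod_val {k : ℕ} (F : ℕ → ℤ) : ∏ f : Fin k → Fin 2, F (val f) = ∏ x ∈ range (2 ^ k), F x := by
  rw [← Fin.prod_univ_eq_prod_range F (2 ^ k)]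
  rw [← Equiv.prod_comp (finFunctionFinEquiv (m := 2) (n := k))
    (fun x : Fin (2 ^ k) => F (x : ℕ))]
  apply prod_congr rfl
  intro f _
  rw [val_eq]

/-- Flip the coordinate `j`. -/
def flip {k : ℕ} (j : Fin k) (f : Fin k → Fin 2) : Fin k → Fin 2 :=
  Function.update f j (f j + 1)

lemma flip_ne {k : ℕ} (j : Fin k) (f : Fin k → Fin 2) : flip j f ≠ f := by
  intro h
  have := congrFun h j
  simp only [flip, Function.update_self] at this
  revert this
  generalize f j = x
  revert x
  decide

lemma flip_flip {k : ℕ} (j : Fin k) (f : Fin k → Fin 2) : flip j (flip j f) = f := by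
  funext i
  by_cases hi : i = j
  · subst hi
    simp only [flip, Function.update_self]
    generalize f i = x
    revert x
    decide
  · simp [flip, Function.update_of_ne hi]

theorem relation (a k : ℕ) (ha : 0 < a) (hk : Odd k) (b : Fin k → ℕ) (W : Finset ℕ)
    (hbW : ∀ j, b j ∈ W) (n₁ : ℕ) (hn₁ : ∀ w ∈ W, Squarefree (a * n₁ + w)) :
    ∃ α m : (Fin k → Fin 2) → ℕ, (∀ f, 0 < α f) ∧
      (∃ c : ℝ, 0 < c ∧ ∃ V₀ : ℕ, ∀ V : ℕ, V₀ ≤ V →
        c * V ≤ (((range V).filter (fun ν => ∀ f, ∀ w ∈ W,
          Squarefree (a * (α f * ν + m f) + w))).card : ℝ)) ∧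
      ∀ ν : ℕ, (∀ f, ∀ w ∈ W, Squarefree (a * (α f * ν + m f) + w)) →
        ∏ f, ∏ j, moebius (a * (α f * ν + m f) + b j) = -1 := by
  classical
  set K : ℕ := 2 ^ k with hKdef
  have hK : 0 < K := by positivity
  set L : ℕ := K * W.card + 2 * K + 1 with hL
  set M : ℕ := (a * L.factorial) ^ 2 with hM
  have hLf : 0 < L.factorial := Nat.factorial_pos _
  have hMpos : 0 < M := by positivity
  have hprime : ∀ q : ℕ, q.Prime → q ≤ L → q ∣ a * M := by
    intro q hq hqL
    have h1 : q ∣ L.factorial := (Nat.Prime.dvd_factorial hq).mpr hqL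
    have h2 : q ∣ M := (h1.mul_left a).trans (dvd_pow_self _ two_ne_zero)
    exact h2.mul_left a
  have hsqM : ∀ q : ℕ, q.Prime → q ∣ a * M → q ^ 2 ∣ M := by
    intro q hq hqd
    have h1 : q ∣ a * L.factorial := by
      rcases hq.dvd_mul.mp hqd with h | h
      · exact h.mul_right _
      · exact hq.dvd_of_dvd_pow h
    exact pow_dvd_pow_of_dvd h1 2
  obtain ⟨A, τ, hA, hτp, hdvd, hmod, hcop, hsq, hprod⟩ :=
    exists_AP K (a * M) hK (by positivity) (fun q hq hqK => hprime q hq (by omega))
  obtain ⟨t, ht⟩ := hdvd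
  set g : ℕ := M * t with hg
  have hag : τ = a * g := by rw [ht, hg]; ring
  -- the denominators
  set d : (Fin k → Fin 2) → ℕ := fun f => A + val f * τ with hd
  have hdsq : ∀ f, Squarefree (d f) := fun f => hsq (val f) (val_lt f)
  have hdpos : ∀ f, 0 < d f := fun f => by simp only [hd]; omega
  have hprimeτ : ∀ q : ℕ, q.Prime → q ∣ τ → ∀ x, ¬ q ∣ A + x * τ := by
    intro q hq hqτ x hqd
    have h1 : q ∣ A := (Nat.dvd_add_left (hqτ.mul_left x)).mp hqd
    have h2 : q ∣ Nat.gcd A τ := Nat.dvd_gcd h1 hqτ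
    rw [hcop] at h2
    exact hq.one_lt.ne' (Nat.dvd_one.mp h2)
  have hdcop0 : ∀ x y : ℕ, x < y → y < K → Nat.Coprime (A + x * τ) (A + y * τ) := by
    intro x y hxy hy
    rw [Nat.coprime_iff_gcd_eq_one]
    by_contra hne
    obtain ⟨q, hq, hqd⟩ := Nat.exists_prime_and_dvd hne
    have h1 : q ∣ A + x * τ := hqd.trans (Nat.gcd_dvd_left _ _)
    have h2 : q ∣ A + y * τ := hqd.trans (Nat.gcd_dvd_right _ _)
    have h3 : q ∣ (y - x) * τ := by
      have h4 := Nat.dvd_sub h2 h1
      have h5 : A + y * τ - (A + x * τ) = (y - x) * τ := by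
        rw [Nat.sub_mul]; omega
      rwa [h5] at h4
    rcases hq.dvd_mul.mp h3 with h | h
    · have h6 := Nat.le_of_dvd (by omega) h
      have h7 : q ∣ a * M := hprime q hq (by
        have : 0 ≤ K * W.card := Nat.zero_le _
        omega)
      exact hprimeτ q hq (by rw [ht]; exact h7.mul_right t) x h1
    · exact hprimeτ q hq h x h1
  have hdcop : ∀ f f' : Fin k → Fin 2, f ≠ f' → Nat.Coprime (d f) (d f') := by
    intro f f' hne
    have hv : val f ≠ val f' := fun h => hne (val_inj h)
    rcases lt_or_gt_of_ne hv with h | h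
    · exact hdcop0 _ _ h (val_lt f')
    · exact (hdcop0 _ _ h (val_lt f)).symm
  have hdM : ∀ f, Nat.Coprime M (d f) := by
    intro f
    rw [Nat.coprime_iff_gcd_eq_one]
    by_contra hne
    obtain ⟨q, hq, hqd⟩ := Nat.exists_prime_and_dvd hne
    have h1 : q ∣ M := hqd.trans (Nat.gcd_dvd_left _ _)
    have h2 : q ∣ d f := hqd.trans (Nat.gcd_dvd_right _ _)
    exact hprimeτ q hq (by rw [ht]; exact (h1.mul_left a).mul_right t) _ h2
  have hMd1 : ∀ f, d f ≡ 1 [MOD M] := by
    intro f
    have h1 : A ≡ 1 [MOD M] := hmod.of_mul_left a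
    have h2 : val f * τ ≡ 0 [MOD M] := by
      rw [Nat.modEq_zero_iff_dvd, ht]
      exact ((dvd_mul_left M a).mul_right t).mul_left _
    simpa using h1.add h2
  -- the weights
  set w : (Fin k → Fin 2) → ℕ := fun f => ∑ i, (f i : ℕ) * 2 ^ (i : ℕ) * b i with hw
  -- CRT
  obtain ⟨u₀, hu0M, hu0d, hu0big⟩ : ∃ u₀ : ℕ, u₀ ≡ n₁ [MOD M] ∧
      (∀ f, u₀ ≡ g * w f [MOD d f]) ∧ ∀ f, g * w f ≤ u₀ := by
    let s : Option (Fin k → Fin 2) → ℕ := fun o => o.elim M d
    let r : Option (Fin k → Fin 2) → ℕ := fun o => o.elim n₁ (fun f => g * w f)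
    have hs : ∀ o ∈ (univ : Finset (Option (Fin k → Fin 2))), s o ≠ 0 := by
      intro o _
      cases o with
      | none => exact hMpos.ne'
      | some f => exact (hdpos f).ne'
    have hpp : ((univ : Finset (Option (Fin k → Fin 2))) : Set (Option (Fin k → Fin 2))).Pairwise
        (Function.onFun Nat.Coprime s) := by
      intro o _ o' _ hne
      cases o with
      | none =>
        cases o' with
        | none => exact absurd rfl hne
        | some f => exact hdM f
      | some f =>
        cases o' with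
        | none => exact (hdM f).symm
        | some f' => exact hdcop f f' (fun h => hne (by rw [h]))
    obtain ⟨v, hv⟩ := Nat.chineseRemainderOfFinset r s univ hs hpp
    refine ⟨v + (M * ∏ f, d f) * ∑ f, g * w f, ?_, ?_, ?_⟩
    · have h1 : v ≡ n₁ [MOD M] := hv none (mem_univ _)
      have h2 : (M * ∏ f, d f) * ∑ f, g * w f ≡ 0 [MOD M] := by
        rw [Nat.modEq_zero_iff_dvd]
        exact (dvd_mul_right _ _).mul_right _
      simpa using h1.add h2
    · intro f
      have h1 : v ≡ g * w f [MOD d f] := hv (some f) (mem_univ _)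
      have h2 : (M * ∏ f, d f) * ∑ f, g * w f ≡ 0 [MOD d f] := by
        rw [Nat.modEq_zero_iff_dvd]
        exact ((dvd_prod_of_mem d (mem_univ f)).mul_left _).mul_right _
      simpa using h1.add h2
    · intro f
      have h1 : g * w f ≤ ∑ f, g * w f :=
        single_le_sum (f := fun f => g * w f) (fun _ _ => Nat.zero_le _) (mem_univ f)
      have h2 : 0 < M * ∏ f, d f := Nat.mul_pos hMpos (prod_pos (fun f _ => hdpos f))
      have h3 : ∑ f, g * w f ≤ (M * ∏ f, d f) * ∑ f, g * w f := Nat.le_mul_of_pos_left _ h2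
      omega
  have hm : ∀ f, ∃ m, u₀ = d f * m + g * w f := by
    intro f
    have h1 : d f ∣ u₀ - g * w f := (Nat.modEq_iff_dvd' (hu0big f)).mp (hu0d f).symm
    obtain ⟨m, hm⟩ := h1
    exact ⟨m, by have := hu0big f; omega⟩
  choose m hm using hm
  have hmM : ∀ f, m f ≡ n₁ [MOD M] := by
    intro f
    have h1 : g * w f ≡ 0 [MOD M] := by
      rw [Nat.modEq_zero_iff_dvd, hg]
      exact (dvd_mul_right M t).mul_right _
    have h2 : d f * m f ≡ m f [MOD M] := by
      simpa using (hMd1 f).mul_right (m f)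
    have h3 : u₀ ≡ m f [MOD M] := by
      rw [hm f]; simpa using h2.add h1
    exact h3.symm.trans hu0M
  set α : (Fin k → Fin 2) → ℕ := fun f => ∏ f' ∈ univ.erase f, d f' with hα
  have hαd : ∀ f, d f * α f = ∏ f', d f' := fun f => mul_prod_erase univ d (mem_univ f)
  have hαpos : ∀ f, 0 < α f := fun f => prod_pos (fun f' _ => hdpos f')
  have hαsq : ∀ f, Squarefree (α f) := by
    intro f
    have : ∀ S : Finset (Fin k → Fin 2), Squarefree (∏ f' ∈ S, d f') := by
      intro S
      induction S using Finset.induction_on with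
      | empty => simp
      | insert x S hx ih =>
        rw [prod_insert hx, Nat.squarefree_mul_iff]
        refine ⟨?_, hdsq x, ih⟩
        apply Nat.Coprime.prod_right
        intro y hy
        exact hdcop x y (fun h => hx (h ▸ hy))
    exact this _
  refine ⟨α, m, hαpos, ?_, ?_⟩
  · -- the sieve
    have hloc : ∀ q : ℕ, q.Prime → ∃ s, ∀ i ∈ (univ : Finset (Fin k → Fin 2)) ×ˢ W,
        ¬ q ^ 2 ∣ (a * α i.1) * s + (a * m i.1 + i.2) := by
      intro q hq
      by_cases hqM : q ∣ a * M
      · refine ⟨0, ?_⟩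
        rintro ⟨f, w'⟩ hi hd'
        simp only [mem_product, mem_univ, true_and] at hi
        simp only [mul_zero, zero_add] at hd'
        have h1 := hsqM q hq hqM
        have h2 : a * m f + w' ≡ a * n₁ + w' [MOD q ^ 2] :=
          (((hmM f).of_dvd h1).mul_left a).add_right w'
        have h3 : q ^ 2 ∣ a * n₁ + w' := (h2.dvd_iff dvd_rfl).mp hd'
        have h4 := hn₁ w' hi
        rw [Nat.squarefree_iff_prime_squarefree] at h4
        exact h4 q hq (by rwa [← pow_two])
      · have hqL : L < q := by
          by_contra h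
          push Not at h
          exact hqM (hprime q hq h)
        apply local_exists (univ ×ˢ W) (fun i => a * α i.1) (fun i => a * m i.1 + i.2) q hq
        · intro i _ hd'
          have hqa : ¬ q ∣ a := fun h => hqM (h.mul_right M)
          have h1 : q ^ 2 ∣ α i.1 :=
            ((Nat.Prime.coprime_iff_not_dvd hq).mpr hqa).pow_left 2 |>.dvd_of_dvd_mul_left hd'
          have h4 := hαsq i.1
          rw [Nat.squarefree_iff_prime_squarefree] at h4
          exact h4 q hq (by rwa [← pow_two])
        · rw [card_product, card_univ, Fintype.card_fun, Fintype.card_fin, Fintype.card_fin]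
          have : 2 ^ k * W.card = K * W.card := rfl
          omega
    obtain ⟨c, hc, V₀, hV⟩ := sieve (univ ×ˢ W) (fun i => a * α i.1) (fun i => a * m i.1 + i.2)
      (fun i _ => Nat.mul_pos ha (hαpos i.1)) hloc
    refine ⟨c, hc, V₀, fun V hV' => (hV V hV').trans ?_⟩
    have hsub : (range V).filter (fun s => ∀ i ∈ (univ : Finset (Fin k → Fin 2)) ×ˢ W,
        Squarefree ((a * α i.1) * s + (a * m i.1 + i.2))) ⊆
        (range V).filter (fun ν => ∀ f, ∀ w ∈ W, Squarefree (a * (α f * ν + m f) + w)) := by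
      intro s hs
      obtain ⟨h1, h2⟩ := mem_filter.mp hs
      refine mem_filter.mpr ⟨h1, fun f w' hw' => ?_⟩
      have := h2 (f, w') (by simp [hw'])
      simp only at this
      convert this using 1
      ring
    exact_mod_cast card_le_card hsub
  · intro ν hν
    rw [prod_comm]
    have hj : ∀ j, ∏ f, moebius (a * (α f * ν + m f) + b j) = -1 := by
      intro j
      -- the key identity
      obtain ⟨Nn, hNn⟩ : ∃ Nn : ℕ, ∀ f, d f * α f = Nn := ⟨_, hαd⟩
      have hkey : ∀ f, (d f : ℤ) * ((a * (α f * ν + m f) + b j : ℕ) : ℤ) =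
          a * Nn * ν + a * u₀ + A * b j +
            τ * ∑ i, (f i : ℤ) * 2 ^ (i : ℕ) * ((b j : ℤ) - b i) := by
        intro f
        have h1 : (d f : ℤ) * α f = Nn := by exact_mod_cast hNn f
        have h2 : (u₀ : ℤ) = d f * m f + g * w f := by exact_mod_cast hm f
        have h3 : ∑ i, (f i : ℤ) * 2 ^ (i : ℕ) * ((b j : ℤ) - b i) =
            (val f : ℤ) * b j - w f := by
          simp only [val, hw]
          push_cast
          rw [sum_mul, ← sum_sub_distrib]
          apply sum_congr rfl
          intro i _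
          ring
        have h4 : (τ : ℤ) = a * g := by exact_mod_cast hag
        have h5 : (d f : ℤ) = A + val f * τ := by simp [hd]
        rw [h3]
        push_cast
        linear_combination (a * ν : ℤ) * h1 - (a : ℤ) * h2 + (b j : ℤ) * h5 + (w f : ℤ) * h4
      have hflip : ∀ f, d f * (a * (α f * ν + m f) + b j) =
          d (flip j f) * (a * (α (flip j f) * ν + m (flip j f)) + b j) := by
        intro f
        have h1 : (d f : ℤ) * ((a * (α f * ν + m f) + b j : ℕ) : ℤ) =
            (d (flip j f) : ℤ) *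
              ((a * (α (flip j f) * ν + m (flip j f)) + b j : ℕ) : ℤ) := by
          rw [hkey f, hkey (flip j f)]
          congr 2
          apply sum_congr rfl
          intro i _
          by_cases hi : i = j
          · subst hi; simp
          · simp [flip, Function.update_of_ne hi]
        exact_mod_cast h1
      have hinv : ∏ f, (moebius (a * (α f * ν + m f) + b j) * moebius (d f)) = 1 := by
        refine prod_involution (fun f _ => flip j f) ?_ ?_ ?_ ?_
        · intro f _
          exact pair_eq (hdcop f (flip j f) (flip_ne j f).symm) (hflip f) (hdsq f)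
            (hdsq _) (hν f (b j) (hbW j)) (hν _ (b j) (hbW j))
        · intro f _ _
          exact flip_ne j f
        · intro f _
          exact mem_univ _
        · intro f _
          exact flip_flip j f
      rw [prod_mul_distrib] at hinv
      have hdprod : ∏ f, moebius (d f) = -1 := by
        rw [← hprod]
        exact prod_val (fun x => moebius (A + x * τ))
      rw [hdprod] at hinv
      linarith
    rw [prod_congr rfl (fun j _ => hj j), prod_const, card_univ, Fintype.card_fin]
    exact hk.neg_one_pow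

end Pool.Agent.Lib64Chowla
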