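import Mathlib

set_option autoImplicit false

/-!
Square-free values of finitely many linear forms: positive lower density.
-/

namespace Pool.Agent.Lib64Chowla

open Finset

/-- A set of integers below `T` all congruent modulo `m` has at most `T / m + 1` elements. -/
lemma card_le_of_modEq (T m : ℕ) (S : Finset ℕ) (hS : ∀ x ∈ S, x < T)
    (hc : ∀ x ∈ S, ∀ y ∈ S, x ≡ y [MOD m]) : S.card ≤ T / m + 1 := by
  rcases Nat.eq_zero_or_pos m with rfl | hm
  · have : S.card ≤ 1 := by
      rw [card_le_one]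
      intro x hx y hy
      have := hc x hx y hy
      simpa [Nat.ModEq] using this
    omega
  · calc S.card ≤ (range (T / m + 1)).card := by
          apply card_le_card_of_injOn (fun x => x / m)
          · intro x hx
            simp only [coe_range, Set.mem_Iio]
            have := hS x hx
            exact Nat.lt_succ_of_le (Nat.div_le_div_right this.le)
          · intro x hx y hy hxy
            have h1 := hc x hx y hy
            simp only at hxy
            have h2 : x % m = y % m := h1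
            calc x = m * (x / m) + x % m := (Nat.div_add_mod x m).symm
              _ = m * (y / m) + y % m := by rw [hxy, h2]
              _ = y := Nat.div_add_mod y m
      _ = T / m + 1 := by simp

/-- Local solvability at a prime larger than the number of forms. -/
lemma local_exists {ι : Type*} (I : Finset ι) (A C : ι → ℕ) (q : ℕ) (hq : q.Prime)
    (hA : ∀ i ∈ I, ¬ q ^ 2 ∣ A i) (hI : I.card < q) :
    ∃ s, ∀ i ∈ I, ¬ q ^ 2 ∣ A i * s + C i := by
  classical
  by_contra hcon
  push Not at hcon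
  have hcover : range (q ^ 2) ⊆ I.biUnion (fun i => (range (q ^ 2)).filter
      (fun s => q ^ 2 ∣ A i * s + C i)) := by
    intro s hs
    obtain ⟨i, hi, h⟩ := hcon s
    simp only [mem_biUnion, mem_filter]
    exact ⟨i, hi, hs, h⟩
  have h1 := card_le_card hcover
  have h2 : (I.biUnion (fun i => (range (q ^ 2)).filter
      (fun s => q ^ 2 ∣ A i * s + C i))).card ≤ ∑ i ∈ I, (q + 1) := by
    refine card_biUnion_le.trans (sum_le_sum ?_)
    intro i hi
    have h3 := card_le_of_modEq (q ^ 2) q ((range (q ^ 2)).filter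
      (fun s => q ^ 2 ∣ A i * s + C i)) (fun x hx => by simpa using (mem_filter.mp hx).1) ?_
    · have : q ^ 2 / q = q := by
        rw [pow_two, Nat.mul_div_cancel _ hq.pos]
      rwa [this] at h3
    · intro x hx y hy
      have hx' := (mem_filter.mp hx).2
      have hy' := (mem_filter.mp hy).2
      have h4 : ((q : ℤ) ^ 2) ∣ (A i : ℤ) * ((y : ℤ) - x) := by
        have h5 : ((q : ℤ) ^ 2) ∣ ((A i * y + C i : ℕ) : ℤ) := by exact_mod_cast hy'
        have h6 : ((q : ℤ) ^ 2) ∣ ((A i * x + C i : ℕ) : ℤ) := by exact_mod_cast hx'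
        have h7 := dvd_sub h5 h6
        push_cast at h7
        have h8 : (A i : ℤ) * y + C i - (A i * x + C i) = (A i : ℤ) * ((y : ℤ) - x) := by ring
        rwa [h8] at h7
      rw [Nat.modEq_iff_dvd]
      by_contra hnd
      have hq' : Prime (q : ℤ) := Nat.prime_iff_prime_int.mp hq
      have h9 : ((q : ℤ) ^ 2) ∣ (A i : ℤ) := by
        have hcop : IsCoprime ((q : ℤ) ^ 2) ((y : ℤ) - x) := by
          apply IsCoprime.pow_left
          exact (hq'.coprime_iff_not_dvd).mpr hnd
        exact hcop.dvd_of_dvd_mul_right h4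
      exact hA i hi (by exact_mod_cast h9)
  rw [card_range] at h1
  have h5 : q ^ 2 ≤ I.card * (q + 1) := by
    refine h1.trans (h2.trans ?_)
    simp
  have h6 : I.card * (q + 1) ≤ (q - 1) * (q + 1) := Nat.mul_le_mul_right _ (by omega)
  have hq2 := hq.two_le
  obtain ⟨r, rfl⟩ : ∃ r, q = r + 1 := ⟨q - 1, by omega⟩
  simp only [Nat.add_sub_cancel] at h6
  nlinarith

/-- Main sieve lemma: finitely many linear forms, locally admissible at every prime, are
simultaneously square-free on a set of positive lower density. -/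
theorem sieve {ι : Type*} (I : Finset ι) (A C : ι → ℕ) (hA : ∀ i ∈ I, 0 < A i)
    (hloc : ∀ q : ℕ, q.Prime → ∃ s, ∀ i ∈ I, ¬ q ^ 2 ∣ A i * s + C i) :
    ∃ c : ℝ, 0 < c ∧ ∃ S₀ : ℕ, ∀ S : ℕ, S₀ ≤ S →
      c * S ≤ (((range S).filter (fun s => ∀ i ∈ I, Squarefree (A i * s + C i))).card : ℝ) := by
  classical
  choose! sq hsq using hloc
  -- the threshold
  set Q : ℕ := 8 * I.card + ∑ i ∈ I, A i + 1 with hQ
  set P : Finset ℕ := (range (Q + 1)).filter Nat.Prime with hP
  set M : ℕ := ∏ q ∈ P, q ^ 2 with hM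
  have hMpos : 0 < M := prod_pos (fun q hq => pow_pos (mem_filter.mp hq).2.pos 2)
  have hcop : (P : Set ℕ).Pairwise (Function.onFun Nat.Coprime (fun q => q ^ 2)) := by
    intro x hx y hy hxy
    have hx' : x.Prime := (mem_filter.mp (Finset.mem_coe.mp hx)).2
    have hy' : y.Prime := (mem_filter.mp (Finset.mem_coe.mp hy)).2
    exact Nat.Coprime.pow 2 2 ((Nat.coprime_primes hx' hy').mpr hxy)
  obtain ⟨s₀, hs₀⟩ := Nat.chineseRemainderOfFinset sq (fun q => q ^ 2) P
    (fun q hq => (pow_pos (mem_filter.mp hq).2.pos 2).ne') hcop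
  -- good residue class
  have hgood : ∀ t : ℕ, ∀ q ∈ P, ∀ i ∈ I, ¬ q ^ 2 ∣ A i * (s₀ + M * t) + C i := by
    intro t q hq i hi hdvd
    have hqp := (mem_filter.mp hq).2
    apply hsq q hqp i hi
    have h1 : q ^ 2 ∣ M := dvd_prod_of_mem _ hq
    have h2 : A i * (s₀ + M * t) + C i ≡ A i * sq q + C i [MOD q ^ 2] := by
      apply Nat.ModEq.add_right
      apply Nat.ModEq.mul_left
      have h3 : M * t ≡ 0 [MOD q ^ 2] := (Nat.modEq_zero_iff_dvd).mpr (h1.mul_right t)
      have h4 := (hs₀ q hq).add h3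
      simpa using h4
    exact (h2.dvd_iff dvd_rfl).mp hdvd
  -- a bound for the values
  obtain ⟨K, hK1, hK⟩ : ∃ K : ℕ, 1 ≤ K ∧ ∀ T : ℕ, 1 ≤ T → ∀ i ∈ I, ∀ t < T,
      A i * (s₀ + M * t) + C i ≤ K * T := by
    refine ⟨∑ i ∈ I, (A i * (s₀ + M) + C i) + 1, by omega, ?_⟩
    intro T hT i hi t ht
    have h1 : A i * (s₀ + M) + C i ≤ ∑ i ∈ I, (A i * (s₀ + M) + C i) :=
      single_le_sum (f := fun i => A i * (s₀ + M) + C i) (fun _ _ => Nat.zero_le _) hi
    have h2 : s₀ ≤ s₀ * T := Nat.le_mul_of_pos_right _ hT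
    have h3 : C i ≤ C i * T := Nat.le_mul_of_pos_right _ hT
    calc A i * (s₀ + M * t) + C i ≤ A i * (s₀ * T + M * T) + C i * T := by
          have h4 : M * t ≤ M * T := Nat.mul_le_mul_left _ ht.le
          have h5 : A i * (s₀ + M * t) ≤ A i * (s₀ * T + M * T) :=
            Nat.mul_le_mul_left _ (by omega)
          omega
      _ = (A i * (s₀ + M) + C i) * T := by ring
      _ ≤ _ := Nat.mul_le_mul_right _ (by omega)
  -- count of bad t
  have hbad : ∀ T : ℕ, 1 ≤ T →
      (((range T).filter (fun t => 1 ≤ s₀ + M * t ∧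
        ∃ i ∈ I, ¬ Squarefree (A i * (s₀ + M * t) + C i))).card : ℝ)
        ≤ I.card * ((T : ℝ) * (Q : ℝ)⁻¹ + Nat.sqrt (K * T)) := by
    intro T hT
    have hsub : (range T).filter (fun t => 1 ≤ s₀ + M * t ∧
        ∃ i ∈ I, ¬ Squarefree (A i * (s₀ + M * t) + C i)) ⊆
        I.biUnion (fun i => (Ioc Q (max Q (Nat.sqrt (K * T)))).biUnion (fun q =>
          (range T).filter (fun t => q.Prime ∧ q ^ 2 ∣ A i * (s₀ + M * t) + C i))) := by
      intro t ht
      obtain ⟨ht1, ht0, i, hi, hns⟩ := mem_filter.mp ht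
      rw [Nat.squarefree_iff_prime_squarefree] at hns
      push Not at hns
      obtain ⟨q, hqp, hqd⟩ := hns
      simp only [mem_biUnion, mem_filter, mem_Ioc]
      refine ⟨i, hi, q, ⟨?_, ?_⟩, ht1, hqp, by rwa [pow_two]⟩
      · by_contra hle
        push Not at hle
        have hqP : q ∈ P := by
          simp only [hP, mem_filter, mem_range]
          exact ⟨by omega, hqp⟩
        exact hgood t q hqP i hi (by rwa [pow_two])
      · apply le_max_of_le_right
        rw [Nat.le_sqrt]
        have hpos : 0 < A i * (s₀ + M * t) + C i := by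
          have := hA i hi
          positivity
        exact (Nat.le_of_dvd hpos hqd).trans (hK T hT i hi t (mem_range.mp ht1))
    have h1 : (((range T).filter (fun t => 1 ≤ s₀ + M * t ∧
        ∃ i ∈ I, ¬ Squarefree (A i * (s₀ + M * t) + C i))).card : ℝ) ≤
        ∑ i ∈ I, ∑ q ∈ Ioc Q (max Q (Nat.sqrt (K * T))), ((T : ℝ) * ((q : ℝ) ^ 2)⁻¹ + 1) := by
      have h2 := (card_le_card hsub).trans card_biUnion_le
      have h3 : (∑ i ∈ I, ((Ioc Q (max Q (Nat.sqrt (K * T)))).biUnion (fun q =>
          (range T).filter (fun t => q.Prime ∧ q ^ 2 ∣ A i * (s₀ + M * t) + C i))).card : ℕ) ≤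
          ∑ i ∈ I, ∑ q ∈ Ioc Q (max Q (Nat.sqrt (K * T))), (T / q ^ 2 + 1) := by
        apply sum_le_sum
        intro i hi
        refine card_biUnion_le.trans (sum_le_sum ?_)
        intro q hq
        apply card_le_of_modEq
        · intro x hx; simpa using (mem_filter.mp hx).1
        · intro x hx y hy
          obtain ⟨_, hqp, hx'⟩ := mem_filter.mp hx
          obtain ⟨_, _, hy'⟩ := mem_filter.mp hy
          have hqQ : Q < q := (mem_Ioc.mp hq).1
          have hq' : Prime (q : ℤ) := Nat.prime_iff_prime_int.mp hqp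
          have h4 : ((q : ℤ) ^ 2) ∣ ((A i * M : ℕ) : ℤ) * ((y : ℤ) - x) := by
            have h5 : ((q : ℤ) ^ 2) ∣ ((A i * (s₀ + M * y) + C i : ℕ) : ℤ) := by
              exact_mod_cast hy'
            have h6 : ((q : ℤ) ^ 2) ∣ ((A i * (s₀ + M * x) + C i : ℕ) : ℤ) := by
              exact_mod_cast hx'
            have h7 := dvd_sub h5 h6
            have h8 : ((A i * (s₀ + M * y) + C i : ℕ) : ℤ) - ((A i * (s₀ + M * x) + C i : ℕ) : ℤ)
                = ((A i * M : ℕ) : ℤ) * ((y : ℤ) - x) := by push_cast; ring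
            rwa [h8] at h7
          have hnA : ¬ q ∣ A i := by
            intro hd
            have := Nat.le_of_dvd (hA i hi) hd
            have h9 : A i ≤ ∑ i ∈ I, A i := single_le_sum (fun _ _ => Nat.zero_le _) hi
            omega
          have hnM : ¬ q ∣ M := by
            intro hd
            rw [hM, hqp.prime.dvd_finsetProd_iff] at hd
            obtain ⟨r, hr, hd⟩ := hd
            have hrp := (mem_filter.mp hr).2
            have hrQ : r < Q + 1 := mem_range.mp (mem_filter.mp hr).1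
            have := hqp.dvd_of_dvd_pow hd
            have := Nat.le_of_dvd hrp.pos this
            omega
          have hn : ¬ (q : ℤ) ∣ ((A i * M : ℕ) : ℤ) := by
            intro hd
            have hd' : q ∣ A i * M := by exact_mod_cast hd
            rcases hqp.dvd_mul.mp hd' with h | h
            · exact hnA h
            · exact hnM h
          rw [Nat.modEq_iff_dvd]
          have hcop : IsCoprime ((q : ℤ) ^ 2) ((A i * M : ℕ) : ℤ) := by
            apply IsCoprime.pow_left
            exact (hq'.coprime_iff_not_dvd).mpr hn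
          have := hcop.dvd_of_dvd_mul_left h4
          exact_mod_cast this
      have h4 : (((range T).filter (fun t => 1 ≤ s₀ + M * t ∧
        ∃ i ∈ I, ¬ Squarefree (A i * (s₀ + M * t) + C i))).card : ℝ) ≤
          ((∑ i ∈ I, ∑ q ∈ Ioc Q (max Q (Nat.sqrt (K * T))), (T / q ^ 2 + 1) : ℕ) : ℝ) := by
        exact_mod_cast h2.trans h3
      refine h4.trans ?_
      push_cast
      apply sum_le_sum; intro i _
      apply sum_le_sum; intro q _
      have : ((T / q ^ 2 : ℕ) : ℝ) ≤ (T : ℝ) * ((q : ℝ) ^ 2)⁻¹ := by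
        have := @Nat.cast_div_le ℝ _ _ _ T (q ^ 2)
        push_cast at this
        rwa [div_eq_mul_inv] at this
      linarith
    refine h1.trans ?_
    rw [sum_const, nsmul_eq_mul]
    apply mul_le_mul_of_nonneg_left _ (Nat.cast_nonneg _)
    rw [sum_add_distrib, ← mul_sum]
    have h5 : ∑ q ∈ Ioc Q (max Q (Nat.sqrt (K * T))), ((q : ℝ) ^ 2)⁻¹ ≤ (Q : ℝ)⁻¹ := by
      have := sum_Ioc_inv_sq_le_sub (α := ℝ) (k := Q) (n := max Q (Nat.sqrt (K * T)))
        (by omega) (le_max_left _ _)
      have h6 : (0 : ℝ) ≤ ((max Q (Nat.sqrt (K * T)) : ℕ) : ℝ)⁻¹ := by positivity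
      linarith
    have h7 : ∑ q ∈ Ioc Q (max Q (Nat.sqrt (K * T))), (1 : ℝ) ≤ Nat.sqrt (K * T) := by
      rw [sum_const, Nat.card_Ioc, nsmul_eq_mul, mul_one]
      have : max Q (Nat.sqrt (K * T)) - Q ≤ Nat.sqrt (K * T) := by omega
      exact_mod_cast this
    have hT0 : (0 : ℝ) ≤ T := Nat.cast_nonneg _
    nlinarith
  -- final counting
  have hQ8 : (I.card : ℝ) * (Q : ℝ)⁻¹ ≤ 1 / 8 := by
    have hQpos : (0 : ℝ) < Q := by
      have : 0 < Q := by omega
      exact_mod_cast this
    rw [← div_eq_mul_inv, div_le_div_iff₀ hQpos (by norm_num)]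
    have : I.card * 8 ≤ 1 * Q := by omega
    exact_mod_cast this
  refine ⟨1 / (8 * M), by positivity, ?_⟩
  -- T large: I.card * sqrt (K T) ≤ T / 8
  set T₀ : ℕ := 64 * I.card ^ 2 * K + 8 with hT₀
  have hlarge : ∀ T : ℕ, T₀ ≤ T → (I.card : ℝ) * Nat.sqrt (K * T) ≤ T / 8 := by
    intro T hT
    have h1 : (Nat.sqrt (K * T) : ℝ) ^ 2 ≤ K * T := by
      have := Nat.sqrt_le' (K * T)
      exact_mod_cast this
    have h2 : (64 : ℝ) * I.card ^ 2 * K ≤ T := by
      have : 64 * I.card ^ 2 * K ≤ T := by omega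
      exact_mod_cast this
    have hT0 : (0 : ℝ) ≤ T := Nat.cast_nonneg _
    apply le_of_sq_le_sq _ (by positivity)
    calc ((I.card : ℝ) * Nat.sqrt (K * T)) ^ 2 = (I.card : ℝ) ^ 2 * (Nat.sqrt (K * T) : ℝ) ^ 2 := by
          ring
      _ ≤ (I.card : ℝ) ^ 2 * (K * T) := by gcongr
      _ = (64 * I.card ^ 2 * K) * T / 64 := by ring
      _ ≤ T * T / 64 := by gcongr
      _ = (T / 8 : ℝ) ^ 2 := by ring
  refine ⟨s₀ + M * (T₀ + 8 + s₀) , ?_⟩
  intro S hS
  obtain ⟨T, hT1, hT2⟩ : ∃ T : ℕ, s₀ + M * T ≤ S ∧ S < s₀ + M * (T + 1) := by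
    refine ⟨(S - s₀) / M, ?_, ?_⟩
    · have := Nat.div_mul_le_self (S - s₀) M
      have h2 : s₀ ≤ S := by
        have : 0 ≤ M * (T₀ + 8 + s₀) := Nat.zero_le _
        omega
      rw [mul_comm] at this
      omega
    · have := Nat.lt_div_mul_add (a := S - s₀) hMpos
      rw [mul_add, mul_one, mul_comm M]
      omega
  have hTT : T₀ + 8 + s₀ ≤ T := by
    by_contra h
    push Not at h
    have : M * (T + 1) ≤ M * (T₀ + 8 + s₀) := Nat.mul_le_mul_left _ (by omega)
    omega
  have hTpos : 1 ≤ T := by omega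
  -- the good t
  set Gt := (range T).filter (fun t => ∀ i ∈ I, Squarefree (A i * (s₀ + M * t) + C i)) with hGt
  have hsplit : (T : ℝ) ≤ Gt.card + (((range T).filter (fun t => 1 ≤ s₀ + M * t ∧
        ∃ i ∈ I, ¬ Squarefree (A i * (s₀ + M * t) + C i))).card : ℝ) + 1 := by
    have hsub : range T ⊆ (Gt ∪ (range T).filter (fun t => 1 ≤ s₀ + M * t ∧
        ∃ i ∈ I, ¬ Squarefree (A i * (s₀ + M * t) + C i))) ∪ {0} := by
      intro t ht
      simp only [mem_union, mem_singleton]
      by_cases h0 : t = 0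
      · exact Or.inr h0
      · left
        by_cases hg : ∀ i ∈ I, Squarefree (A i * (s₀ + M * t) + C i)
        · left; exact mem_filter.mpr ⟨ht, hg⟩
        · right
          push Not at hg
          refine mem_filter.mpr ⟨ht, ?_, hg⟩
          have : 0 < M * t := Nat.mul_pos hMpos (Nat.pos_of_ne_zero h0)
          omega
    have h1 := card_le_card hsub
    rw [card_range] at h1
    have h2 := (h1.trans (card_union_le _ _)).trans (Nat.add_le_add_right (card_union_le _ _) _)
    rw [card_singleton] at h2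
    exact_mod_cast h2
  have hb := hbad T hTpos
  have hl := hlarge T (by omega)
  have hT8 : (8 : ℝ) ≤ T := by
    have : 8 ≤ T := by omega
    exact_mod_cast this
  have hGlow : (T : ℝ) / 2 ≤ Gt.card := by
    have h3 : (I.card : ℝ) * ((T : ℝ) * (Q : ℝ)⁻¹ + Nat.sqrt (K * T)) ≤ T / 8 + T / 8 := by
      have h4 : (I.card : ℝ) * ((T : ℝ) * (Q : ℝ)⁻¹) ≤ T / 8 := by
        calc (I.card : ℝ) * ((T : ℝ) * (Q : ℝ)⁻¹) = (I.card : ℝ) * (Q : ℝ)⁻¹ * T := by ring
          _ ≤ 1 / 8 * T := by gcongr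
          _ = T / 8 := by ring
      rw [mul_add]
      linarith
    linarith
  have hinj : Gt.card ≤ ((range S).filter (fun s => ∀ i ∈ I, Squarefree (A i * s + C i))).card := by
    apply card_le_card_of_injOn (fun t => s₀ + M * t)
    · intro t ht
      obtain ⟨ht1, ht2⟩ := mem_filter.mp (Finset.mem_coe.mp ht)
      simp only [coe_filter, mem_range, Set.mem_ofPred_eq]
      refine ⟨?_, ht2⟩
      have : M * (t + 1) ≤ M * T := Nat.mul_le_mul_left _ (by simpa using ht1)
      have h5 : M * (t + 1) = M * t + M := by ring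
      omega
    · intro x _ y _ hxy
      simp only at hxy
      have : M * x = M * y := by omega
      exact Nat.eq_of_mul_eq_mul_left hMpos this
  have hS' : (S : ℝ) ≤ M * (T + 1) + s₀ := by
    have : S ≤ M * (T + 1) + s₀ := by omega
    exact_mod_cast this
  have hs0T : (s₀ : ℝ) ≤ T := by
    have : s₀ ≤ T := by omega
    exact_mod_cast this
  have hMR : (1 : ℝ) ≤ M := by exact_mod_cast hMpos
  have hinj' : (Gt.card : ℝ) ≤
      (((range S).filter (fun s => ∀ i ∈ I, Squarefree (A i * s + C i))).card : ℝ) := by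
    exact_mod_cast hinj
  refine le_trans ?_ hinj'
  refine le_trans ?_ hGlow
  rw [div_mul_eq_mul_div, one_mul, div_le_iff₀ (by positivity)]
  nlinarith

end Pool.Agent.Lib64Chowla
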